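import Pool.Agent.R937.PZ.Mot

/-!
# Abelian varieties over finite fields with factors of dimension at most three
-/

set_option autoImplicit false

namespace Pool.Agent.Zk51.BF

open Pool.Agent.W547.KB Pool.Agent.W495.TA Pool.Agent.R937.PG Pool.Agent.W495.FM Module

variable {p : ℕ} [Fact p.Prime] {ν : PadicAlgCl p ≃+* ℂ}

/-- The factors of `Z` have dimension at most three, and any two different factors of dimension three
whose CM fields have the same Galois closure over `ℚ` (in the field of complex numbers) satisfy one of
the following conditions: these CM fields are Galois over `ℚ`; neither of the factors is ordinary (has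
`p`-rank three), and their `p`-ranks are not one and two. -/
structure SmallFactors (Z : RedAV p ν) : Prop where
  degree : ∀ i, finrank ℚ (Z.X.factor i).E ≤ 6
  closure : ∀ i k, i ≠ k → finrank ℚ (Z.X.factor i).E = 6 → finrank ℚ (Z.X.factor k).E = 6 →
    IntermediateField.normalClosure ℚ (Z.X.factor i).E ℂ =
      IntermediateField.normalClosure ℚ (Z.X.factor k).E ℂ →
    IsGalois ℚ (Z.X.factor i).E ∨ (pRank Z i < 3 ∧ pRank Z k < 3 ∧ pRank Z i + pRank Z k ≠ 3)

/-- The groups of motivic and of `ℓ`-adic homology of `X` are those of an abelian variety `Y` over a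
finite field of one of the following kinds: its dimension is at most five; or it is isogenous, over an
algebraic closure, to a product of a supersingular abelian variety and of powers of the factors of an
abelian variety with `SmallFactors`. -/
def IsGoodAbelian {Ω V : Type} [Field Ω] [CharZero Ω] (p : ℕ) [Fact p.Prime]
    (ν : PadicAlgCl p ≃+* ℂ) (T : Homology Ω V) (X : V) : Prop :=
  ∃ (Y : RedAV p ν) (C : Cycles Ω Y) (M : Motivic C) (g : ℕ),
    (g ≤ 5 ∨ ∃ Z, SmallFactors Z ∧ IsPowersTimesSupersingular Z Y) ∧
    Pool.Agent.Y137.GN.IsChowS C ∧ IsMotivic M ∧ IsAbelian T X M g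

end Pool.Agent.Zk51.BF
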