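import Pool.Agent.Zk51.BF.Class
import Pool.Agent.W495.TA.Final

/-!
# The class `IsGoodAbelian` and the class `IsGoodAbelianP`
-/

set_option autoImplicit false

namespace Pool.Agent.Zk51.BF

open Pool.Agent.W547.KB Pool.Agent.W495.TA Pool.Agent.R937.PG Pool.Agent.W495.FM Module NumberField

variable {p : ℕ} [Fact p.Prime] {ν : PadicAlgCl p ≃+* ℂ}

/-- The `p`-rank of an ordinary factor is half of the degree of its field. -/
theorem pRank_of_ordinary {Z : RedAV p ν} {i : Z.X.I} (h : Pool.Agent.R937.PG.IsOrdinary Z i) :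
    2 * pRank Z i = finrank ℚ (Z.X.factor i).E := by
  set E := (Z.X.factor i).E with hE
  set π : E := Z.π i with hπ
  have hp : ‖(p : PadicAlgCl p) ^ Z.a‖ ≠ 1 := by
    rw [norm_pow]
    exact (pow_lt_one₀ (norm_nonneg _) Pool.Agent.W495.TA.norm_p_lt Z.pos.ne').ne
  have hp0 : ‖(p : PadicAlgCl p) ^ Z.a‖ ≠ 0 := by
    rw [norm_ne_zero_iff]
    exact pow_ne_zero _ (by exact_mod_cast (Fact.out : p.Prime).ne_zero)
  have hmul : ∀ ψ : E →+* ℂ, ‖ν.symm (ψ π)‖ * ‖ν.symm ((ComplexEmbedding.conjugate ψ) π)‖ =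
      ‖(p : PadicAlgCl p) ^ Z.a‖ := by
    intro ψ
    have h1 : ψ π * (ComplexEmbedding.conjugate ψ) π = ((p : ℂ) ^ Z.a) := by
      rw [ComplexEmbedding.conjugate_coe_eq, Complex.mul_conj, Complex.normSq_eq_norm_sq,
        (Z.frob i).weil ψ]
      push_cast
      rfl
    rw [← norm_mul, ← map_mul, h1, map_pow, map_natCast]
  let e : {ψ : E →+* ℂ // ‖ν.symm (ψ π)‖ = 1} ≃ {ψ : E →+* ℂ // ¬ ‖ν.symm (ψ π)‖ = 1} :=
    { toFun := fun ψ => ⟨ComplexEmbedding.conjugate ψ.1, by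
        have h1 := hmul ψ.1
        rw [ψ.2, one_mul] at h1
        rw [h1]
        exact hp⟩
      invFun := fun ψ => ⟨ComplexEmbedding.conjugate ψ.1, by
        have h1 := hmul ψ.1
        rw [(h ψ.1).resolve_left ψ.2] at h1
        exact mul_left_cancel₀ hp0 (h1.trans (mul_one _).symm)⟩
      left_inv := fun ψ => Subtype.ext (star_involutive ψ.1)
      right_inv := fun ψ => Subtype.ext (star_involutive ψ.1) }
  have hcard : Nat.card (E →+* ℂ) = finrank ℚ E := by
    rw [Nat.card_eq_fintype_card, NumberField.Embeddings.card]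
  have h2 := Nat.card_congr (Equiv.sumCompl fun ψ : E →+* ℂ => ‖ν.symm (ψ π)‖ = 1)
  rw [Nat.card_sum, ← Nat.card_congr e] at h2
  rw [← hcard, ← h2, two_mul]
  rfl

theorem small_of {Z : RedAV p ν} (h : SmallFactors Z) : SmallFactorsP Z := by
  refine ⟨h.degree, fun i k hi hk hik => ?_⟩
  by_cases he : i = k
  · subst he
    exact Or.inr (Or.inr (Or.inr (Or.inl ⟨RingEquiv.refl _, 1, one_pos, rfl⟩)))
  · rcases h.closure i k he hi hk hik with h1 | ⟨h1, h2, h3⟩
    · exact Or.inl h1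
    · refine Or.inr (Or.inr (Or.inr (Or.inr ⟨fun h4 => ?_, fun h4 => ?_, fun h4 => ?_⟩)))
      · have h5 := pRank_of_ordinary h4
        omega
      · have h5 := pRank_of_ordinary h4
        omega
      · omega

theorem good_of {Ω V : Type} [Field Ω] [CharZero Ω] {T : Homology Ω V} {X : V}
    (h : IsGoodAbelian p ν T X) : IsGoodAbelianP p ν T X := by
  obtain ⟨Y, C, M, g, hY, hC, hM, hX⟩ := h
  refine ⟨Y, C, M, g, ?_, hC, hM, hX⟩
  rcases hY with hY | ⟨Z, hZ, hY⟩
  · have h1 : finrank ℚ Y.X.H1 = 2 * g := hX.dim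
    exact Or.inl (by omega)
  · exact Or.inr ⟨Z, small_of hZ, hY⟩

end Pool.Agent.Zk51.BF
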